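import Mathlib
import Pool.Agent.W650.HL.Stm

set_option autoImplicit false

/-! Project HL: weighted colour count of the path. -/

namespace Pool.Agent.W311.HL

open Pool.W650.HL Finset

/-- consecutive values are different -/
def Pr {r : ℕ} (n : ℕ) (σ : Fin (n + 1) → Fin r) : Prop := ∀ k : Fin n, σ k.castSucc ≠ σ k.succ

lemma pr_iff {r n : ℕ} (σ : Fin (n + 1) → Fin r) :
    (∀ u v, (SimpleGraph.pathGraph (n + 1)).Adj u v → σ u ≠ σ v) ↔ Pr n σ := by
  constructor
  · intro h k
    apply h
    rw [SimpleGraph.pathGraph_adj]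
    left
    simp
  · intro h u v huv
    rw [SimpleGraph.pathGraph_adj] at huv
    rcases huv with huv | huv
    · have hu : (u : ℕ) < n := by have := v.2; omega
      have h1 := h ⟨u, hu⟩
      have e1 : (⟨u, hu⟩ : Fin n).castSucc = u := by ext; simp
      have e2 : (⟨u, hu⟩ : Fin n).succ = v := by ext; simp [huv]
      rwa [e1, e2] at h1
    · have hv : (v : ℕ) < n := by have := u.2; omega
      have h1 := h ⟨v, hv⟩
      have e1 : (⟨v, hv⟩ : Fin n).castSucc = v := by ext; simp
      have e2 : (⟨v, hv⟩ : Fin n).succ = u := by ext; simp [huv]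
      rw [e1, e2] at h1
      exact h1.symm

lemma pr_cons {r n : ℕ} (i : Fin r) (τ : Fin (n + 1) → Fin r) :
    Pr (n + 1) (Fin.cons (α := fun _ => Fin r) i τ) ↔ i ≠ τ 0 ∧ Pr n τ := by
  unfold Pr
  rw [Fin.forall_fin_succ]
  constructor
  · rintro ⟨h0, h1⟩
    refine ⟨?_, fun k => ?_⟩
    · simpa using h0
    · have := h1 k
      rw [← Fin.succ_castSucc, Fin.cons_succ, Fin.cons_succ] at this
      exact this
  · rintro ⟨h0, h1⟩
    refine ⟨?_, fun k => ?_⟩
    · simpa using h0
    · rw [← Fin.succ_castSucc, Fin.cons_succ, Fin.cons_succ]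
      exact h1 k

open Classical in
lemma gen {r : ℕ} (a : Fin r → ℝ) (n : ℕ) : ∀ f : Fin r → ℝ,
    ∑ σ : Fin (n + 1) → Fin r, (if Pr n σ then f (σ 0) * ∏ v, a (σ v) else 0) =
      ∑ i, a i * ((Mop a)^[n] f) i := by
  induction n with
  | zero =>
    intro f
    rw [← (Fin.consEquiv (fun _ => Fin r)).sum_comp, Fintype.sum_prod_type]
    apply Finset.sum_congr rfl
    intro i _
    simp [Pr, Fin.consEquiv, mul_comm]
  | succ n ih =>
    intro f
    rw [Function.iterate_succ_apply, ← ih (Mop a f),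
      ← (Fin.consEquiv (fun _ => Fin r)).sum_comp, Fintype.sum_prod_type, Finset.sum_comm]
    apply Finset.sum_congr rfl
    intro τ _
    have e1 : ∀ i : Fin r, (if Pr (n + 1) ((Fin.consEquiv (fun _ => Fin r)) (i, τ)) then
        f ((Fin.consEquiv (fun _ => Fin r)) (i, τ) 0) *
          ∏ v, a ((Fin.consEquiv (fun _ => Fin r)) (i, τ) v) else 0) =
        if Pr n τ then (if i ≠ τ 0 then a i * f i else 0) * ∏ v, a (τ v) else 0 := by
      intro i
      have hc : (Fin.consEquiv (fun _ => Fin r)) (i, τ) = Fin.cons (α := fun _ => Fin r) i τ := rfl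
      rw [hc]
      by_cases h1 : Pr n τ
      · by_cases h2 : i ≠ τ 0
        · rw [if_pos ((pr_cons i τ).2 ⟨h2, h1⟩), if_pos h1, if_pos h2, Fin.prod_univ_succ]
          simp only [Fin.cons_zero, Fin.cons_succ]
          ring
        · rw [if_neg (fun h => h2 ((pr_cons i τ).1 h).1), if_pos h1, if_neg h2, zero_mul]
      · rw [if_neg (fun h => h1 ((pr_cons i τ).1 h).2), if_neg h1]
    rw [Finset.sum_congr rfl fun i _ => e1 i]
    by_cases h1 : Pr n τ
    · simp only [if_pos h1]
      rw [← Finset.sum_mul]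
      congr 1
      unfold Mop
      rw [← Finset.sum_filter, Finset.filter_ne', ← Finset.sum_erase_add _ _ (Finset.mem_univ (τ 0))]
      ring
    · simp only [if_neg h1, Finset.sum_const_zero]

/-- the weighted count of the path -/
theorem pathz : PATHZ := by
  intro n r a
  classical
  unfold Zf U
  rw [← gen a n (fun _ => 1)]
  refine Finset.sum_congr (by ext; simp) ?_
  intro σ _
  by_cases h : Pr n σ
  · rw [if_pos h, if_pos ((pr_iff σ).2 h)]
    simp
  · rw [if_neg h, if_neg (fun h' => h ((pr_iff σ).1 h'))]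

end Pool.Agent.W311.HL
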